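import Mathlib

/-!
Preimages under complex polynomials; multiplicities of the zeros of a composition (helper file for
`MP_d83ecd_ag.SemigroupOrbits`).
-/

set_option autoImplicit false

namespace Pool.Agent.R424.SO

open Polynomial

/-- A complex polynomial with only one root is a power of a linear factor. -/
theorem single_root {p : ℂ[X]} {z : ℂ} (hp0 : p ≠ 0) (h : ∀ w, p.eval w = 0 → w = z) :
    p = C p.leadingCoeff * (X - C z) ^ p.natDegree := by
  have hcard : p.roots.card = p.natDegree :=
    (splits_iff_card_roots.1 (IsAlgClosed.splits p))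
  have hrep : p.roots = Multiset.replicate p.natDegree z := by
    refine Multiset.eq_replicate.2 ⟨hcard, fun b hb => h b ?_⟩
    exact (mem_roots hp0).1 hb
  have h1 := C_leadingCoeff_mul_prod_multiset_X_sub_C hcard
  rw [hrep, Multiset.map_replicate, Multiset.prod_replicate] at h1
  exact h1.symm

/-- A point `α` which has a preimage different from itself under a polynomial `p` of degree at least
two has two different preimages under the second iterate. -/
theorem two_preimages {p : ℂ[X]} (hp : 2 ≤ p.natDegree) {α : ℂ}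
    (h : ∃ z, z ≠ α ∧ p.eval z = α) :
    ∃ β β' : ℂ, β ≠ β' ∧ p.eval (p.eval β) = α ∧ p.eval (p.eval β') = α := by
  obtain ⟨z, hz, hzα⟩ := h
  have hsurj : ∀ a : ℂ, ∃ b, p.eval b = a := by
    intro a
    have h1 : (p - C a).degree ≠ 0 := by
      have h2 : (p - C a).natDegree = p.natDegree := natDegree_sub_C
      intro h3
      have h4 : (p - C a).natDegree = 0 := natDegree_eq_zero_iff_degree_le_zero.2 h3.le
      omega
    obtain ⟨b, hb⟩ := IsAlgClosed.exists_root (p - C a) h1
    refine ⟨b, ?_⟩
    simpa [IsRoot, sub_eq_zero] using hb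
  by_contra hcon
  push Not at hcon
  -- uniqueness of the preimages of `α` and of `z`
  have hu1 : ∀ w, p.eval w = α → w = z := by
    intro w hw
    by_contra hne
    obtain ⟨b, hb⟩ := hsurj w
    obtain ⟨b', hb'⟩ := hsurj z
    have hbb : b ≠ b' := by
      rintro rfl
      exact hne (hb.symm.trans hb')
    exact hcon b b' hbb (by rw [hb, hw]) (by rw [hb', hzα])
  obtain ⟨γ, hγ⟩ := hsurj z
  have hu2 : ∀ w, p.eval w = z → w = γ := by
    intro w hw
    by_contra hne
    exact hcon w γ hne (by rw [hw, hzα]) (by rw [hγ, hzα])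
  have hne0 : ∀ a : ℂ, p - C a ≠ 0 := by
    intro a h0
    have h2 : (p - C a).natDegree = p.natDegree := natDegree_sub_C
    rw [h0, natDegree_zero] at h2
    omega
  have e1 := single_root (z := z) (hne0 α) (fun w hw => hu1 w (by
    rw [eval_sub, eval_C, sub_eq_zero] at hw
    exact hw))
  have e2 := single_root (z := γ) (hne0 z) (fun w hw => hu2 w (by
    rw [eval_sub, eval_C, sub_eq_zero] at hw
    exact hw))
  have hlc : (p - C α).leadingCoeff ≠ 0 := leadingCoeff_ne_zero.2 (hne0 α)
  have d1 : (derivative p).eval γ = 0 := by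
    have h1 : derivative (p - C z) = derivative p := by simp
    rw [← h1, e2, derivative_C_mul, derivative_X_sub_C_pow]
    have h2 : p.natDegree - 1 ≠ 0 := by omega
    simp [h2]
  have d2 : (derivative p).eval γ = (p - C α).leadingCoeff *
      (((p - C α).natDegree : ℂ) * (γ - z) ^ ((p - C α).natDegree - 1)) := by
    have h1 : derivative (p - C α) = derivative p := by simp
    rw [← h1]
    conv_lhs => rw [e1]
    rw [derivative_C_mul, derivative_X_sub_C_pow]
    simp
  rw [d1] at d2
  have hγz : γ = z := by
    have h3 := d2.symm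
    rw [mul_eq_zero, mul_eq_zero] at h3
    rcases h3 with h3 | h3 | h3
    · exact absurd h3 hlc
    · rw [natDegree_sub_C] at h3
      have : (p.natDegree : ℂ) ≠ 0 := by
        exact_mod_cast (by omega : p.natDegree ≠ 0)
      exact absurd h3 this
    · exact sub_eq_zero.1 ((by simpa using pow_eq_zero_iff (M₀ := ℂ) (a := γ - z) (n := (p - C α).natDegree - 1) (by rw [natDegree_sub_C]; omega) |>.1 h3))
  rw [hγz] at hγ
  exact hz (hγ.symm.trans hzα)

/-- The multiplicity of a zero of a composition. -/
theorem rootMultiplicity_comp {p q : ℂ[X]} (hp : p ≠ 0) (hq : q.natDegree ≠ 0) (β : ℂ) :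
    (p.comp q).rootMultiplicity β =
      p.rootMultiplicity (q.eval β) * (q - C (q.eval β)).rootMultiplicity β := by
  set α := q.eval β with hα
  obtain ⟨g, hg⟩ := pow_rootMultiplicity_dvd p α
  have hgα : g.eval α ≠ 0 := by
    intro h0
    have h1 : (X - C α) ^ (p.rootMultiplicity α + 1) ∣ p := by
      rw [pow_succ]
      conv_rhs => rw [hg]
      exact mul_dvd_mul_left _ (dvd_iff_isRoot.2 h0)
    have h2 := (le_rootMultiplicity_iff hp).2 h1
    omega
  have hqα : q - C α ≠ 0 := by
    intro h0
    have h2 : (q - C α).natDegree = q.natDegree := natDegree_sub_C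
    rw [h0, natDegree_zero] at h2
    exact hq h2.symm
  have hg0 : g ≠ 0 := by
    rintro rfl
    exact hgα (by simp)
  have hgc : g.comp q ≠ 0 := by
    intro h0
    have h1 : (g.comp q).eval β = 0 := by rw [h0, eval_zero]
    rw [eval_comp] at h1
    exact hgα h1
  have h3 : p.comp q = (q - C α) ^ (p.rootMultiplicity α) * g.comp q := by
    conv_lhs => rw [hg]
    rw [mul_comp, pow_comp, sub_comp, X_comp, C_comp]
  have h4 : (q - C α) ^ (p.rootMultiplicity α) * g.comp q ≠ 0 := mul_ne_zero (pow_ne_zero _ hqα) hgc
  rw [h3, rootMultiplicity_mul h4, ← count_roots ((q - C α) ^ _), roots_pow,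
    Multiset.count_nsmul, count_roots]
  have h5 : (g.comp q).rootMultiplicity β = 0 := by
    apply rootMultiplicity_eq_zero
    rw [IsRoot, eval_comp]
    exact hgα
  rw [h5, add_zero]

theorem rootMultiplicity_pos_of {q : ℂ[X]} (hq : q.natDegree ≠ 0) (β : ℂ) :
    0 < (q - C (q.eval β)).rootMultiplicity β := by
  refine (rootMultiplicity_pos ?_).2 (by simp [IsRoot])
  intro h0
  have h2 : (q - C (q.eval β)).natDegree = q.natDegree := natDegree_sub_C
  rw [h0, natDegree_zero] at h2
  exact hq h2.symm

end Pool.Agent.R424.SO
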